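import Pool.Agent.L0h29.AL.ArtDefs

/-!
# Project AL: CNT (few syllables of `t` move the base edge by few steps)
-/

set_option autoImplicit false

namespace Pool.Agent.L0h38.AL

open Pool.Agent.K7.H20.AW Pool.Agent.L0h29.AL

universe u

theorem pth_nodup (hSUB : S_SUB.{u}) {E : Type u} (T : ETree E) (p q : E) (l : List E)
    (h : Pth T.r p q l) : l.Nodup := by
  obtain ⟨_, _, h3, _⟩ := hSUB E T (fun _ _ _ => True)
  induction l generalizing p with
  | nil => exact List.nodup_nil
  | cons a l ih =>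
    have hpa : p = a := by
      have := h.2.1
      simpa using this.symm
    subst hpa
    rw [List.nodup_cons]
    constructor
    · intro hmem
      obtain ⟨v1, v2, rfl⟩ := List.append_of_mem hmem
      have h4 := (h3 p q p (p :: v1) v2 h).1
      have h5 := T.noloop p _ h4
      simp at h5
    · cases l with
      | nil => exact List.nodup_nil
      | cons b l =>
        exact ih b (h3 p q b [p] l h).2

theorem rel_coe {G : Type u} [Group G] (S : Amal G) (τ : Bool) (a b : G) :
    S.rel τ (a : G ⧸ S.C) (b : G ⧸ S.C) ↔ a⁻¹ * b ∈ S.A τ := by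
  unfold Amal.rel
  rw [Subgroup.quotientMapOfLE_apply_mk, Subgroup.quotientMapOfLE_apply_mk, QuotientGroup.eq]

theorem chain_aux {B : Type u} [Fintype B] [DecidableEq B] (M : CoxeterMatrix B)
    (S : Amal (Art M)) (τ : Bool) (b0 : B) (h1 : ∀ b, b ≠ b0 → g M b ∈ S.A τ)
    (h2 : g M b0 ∈ S.A (!τ)) (w : List (B × ℤ)) :
    ∀ h : Art M, ∃ a ∈ S.A τ, ∃ rest : List (Art M ⧸ S.C),
      (((h * a : Art M) : Art M ⧸ S.C) :: rest).IsChain (fun a b => a = b ∨ ∃ τ, S.rel τ a b) ∧
      (((h * a : Art M) : Art M ⧸ S.C) :: rest).getLast? =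
        some ((h * val M w : Art M) : Art M ⧸ S.C) ∧
      rest.length ≤ 2 * (w.map Prod.fst).count b0 := by
  induction w with
  | nil =>
    intro h
    exact ⟨1, one_mem _, [], List.isChain_singleton _, by simp, by simp⟩
  | cons p w ih =>
    intro h
    obtain ⟨a, ha, rest, hc, hl, hn⟩ := ih (h * g M p.1 ^ p.2)
    by_cases hp : p.1 = b0
    · refine ⟨1, one_mem _, ((h * g M p.1 ^ p.2 : Art M) : Art M ⧸ S.C) ::
        ((h * g M p.1 ^ p.2 * a : Art M) : Art M ⧸ S.C) :: rest, ?_, ?_, ?_⟩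
      · rw [List.isChain_cons_cons, List.isChain_cons_cons]
        refine ⟨Or.inr ⟨!τ, ?_⟩, Or.inr ⟨τ, ?_⟩, hc⟩
        · rw [rel_coe, mul_one, inv_mul_cancel_left, hp]
          exact zpow_mem h2 _
        · rw [rel_coe, inv_mul_cancel_left]
          exact ha
      · rw [List.getLast?_cons_cons, List.getLast?_cons_cons, hl, val_cons, mul_assoc]
      · simp only [List.length_cons, List.map_cons, hp, List.count_cons_self]
        omega
    · refine ⟨g M p.1 ^ p.2 * a, mul_mem (zpow_mem (h1 _ hp) _) ha, rest, ?_, ?_, ?_⟩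
      · rw [← mul_assoc]; exact hc
      · rw [← mul_assoc, hl, val_cons, mul_assoc]
      · rw [List.map_cons, List.count_cons_of_ne hp]
        exact hn

theorem bound_aux (hSUB : S_SUB.{u}) (hCRS : S_CRS.{u}) {B : Type u} [Fintype B] [DecidableEq B]
    (M : CoxeterMatrix B) (S : Amal (Art M)) (T : ETree (Art M ⧸ S.C)) (hT : T.r = S.rel)
    (τ : Bool) (b0 : B) (h1 : ∀ b, b ≠ b0 → g M b ∈ S.A τ) (h2 : g M b0 ∈ S.A (!τ))
    (w : List (B × ℤ)) (l : List (Art M ⧸ S.C))
    (hl : Pth T.r ((1 : Art M) : Art M ⧸ S.C) (val M w : Art M ⧸ S.C) l) :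
    l.length ≤ 2 * (w.map Prod.fst).count b0 + 2 := by
  obtain ⟨a, ha, rest, hc, hlast, hn⟩ := chain_aux M S τ b0 h1 h2 w 1
  have hsub : ∀ e ∈ l, e ∈ ((1 : Art M) : Art M ⧸ S.C) ::
      ((1 * a : Art M) : Art M ⧸ S.C) :: rest := by
    refine hCRS _ T _ _ _ l ?_ rfl ?_ hl
    · rw [List.isChain_cons_cons, hT]
      refine ⟨Or.inr ⟨τ, ?_⟩, hc⟩
      rw [rel_coe, one_mul, inv_one, one_mul]
      exact ha
    · rw [List.getLast?_cons_cons, hlast, one_mul]
  have h3 := (List.subperm_of_subset (pth_nodup hSUB T _ _ l hl) hsub).length_le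
  simp only [List.length_cons] at h3
  omega

theorem cnt_of (hSUB : S_SUB.{u}) (hCRS : S_CRS.{u}) : S_CNT.{u} := by
  intro B _ _ M s t hst S T hA hT w l hl
  have hAt : S.A true = P M {t}ᶜ := by rw [hA]; rfl
  have hAf : S.A false = P M {s}ᶜ := by rw [hA]; rfl
  constructor
  · refine bound_aux hSUB hCRS M S T hT true t ?_ ?_ w l hl
    · intro b hb
      rw [hAt]; exact g_mem (by simpa using hb)
    · show g M t ∈ S.A false
      rw [hAf]; exact g_mem (by simpa using hst.symm)
  · refine bound_aux hSUB hCRS M S T hT false s ?_ ?_ w l hl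
    · intro b hb
      rw [hAf]; exact g_mem (by simpa using hb)
    · show g M s ∈ S.A true
      rw [hAt]; exact g_mem (by simpa using hst)

end Pool.Agent.L0h38.AL
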