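import Pool.Agent.L0h29.AL.Defs

/-!
# Project AL: CVX (geodesics between edges of a translate)
-/

set_option autoImplicit false

namespace Pool.Agent.L0h38.AL

open Pool.Agent.K7.H20.AW Pool.Agent.L0h29.AL

universe u

section

variable {G : Type u} [Group G] (S : Dat G)

theorem rel_mk (τ : Bool) (g g' : G) :
    S.rel τ (g : G ⧸ S.C) (g' : G ⧸ S.C) ↔ g⁻¹ * g' ∈ S.A τ := by
  unfold Amal.rel
  rw [Subgroup.quotientMapOfLE_apply_mk, Subgroup.quotientMapOfLE_apply_mk, QuotientGroup.eq]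

/-- the path given by a word in syllables -/
def pp (g : G) : List (Bool × ℤ) → List (G ⧸ S.C)
  | [] => [(g : G ⧸ S.C)]
  | a :: l => (g : G ⧸ S.C) :: pp (g * S.x a.1 ^ a.2) l

theorem pp_head (g : G) (l : List (Bool × ℤ)) : (pp S g l).head? = some (g : G ⧸ S.C) := by
  cases l <;> rfl

theorem pp_ne (g : G) (l : List (Bool × ℤ)) : pp S g l ≠ [] := by
  cases l <;> simp [pp]

theorem pp_last (g : G) (l : List (Bool × ℤ)) :
    (pp S g l).getLast? = some ((g * ev S.x l : G) : G ⧸ S.C) := by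
  induction l generalizing g with
  | nil => simp [pp, ev]
  | cons a l ih =>
    have h := ih (g * S.x a.1 ^ a.2)
    rw [pp, List.getLast?_cons, h]
    simp only [Option.getD_some]
    congr 2
    simp [ev, mul_assoc]

theorem xpow_mem (a : Bool × ℤ) : S.x a.1 ^ a.2 ∈ Subgroup.closure (Set.range S.x) :=
  zpow_mem (Subgroup.subset_closure (Set.mem_range_self a.1)) _

theorem step_ne {a : Bool × ℤ} (ha : a.2 ≠ 0) (g : G) :
    (g : G ⧸ S.C) ≠ ((g * S.x a.1 ^ a.2 : G) : G ⧸ S.C) := by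
  intro h
  rw [QuotientGroup.eq, inv_mul_cancel_left] at h
  exact ha (S.pw _ _ h)

theorem step_rel (a : Bool × ℤ) (g : G) :
    S.rel a.1 (g : G ⧸ S.C) ((g * S.x a.1 ^ a.2 : G) : G ⧸ S.C) := by
  rw [rel_mk, inv_mul_cancel_left]
  exact zpow_mem (S.hx _) _

theorem step_only (T : ETree (G ⧸ S.C)) (hT : T.r = S.rel) {a : Bool × ℤ} (ha : a.2 ≠ 0) (g : G)
    (τ : Bool) (h : T.r τ (g : G ⧸ S.C) ((g * S.x a.1 ^ a.2 : G) : G ⧸ S.C)) : τ = a.1 := by
  by_contra hne
  have h1 := step_rel S a g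
  rw [← hT] at h1
  apply step_ne S ha g
  cases τ
  · cases h2 : a.1
    · exact absurd h2.symm hne
    · rw [h2] at h1; exact T.meet _ _ h1 (by rw [h2] at h; exact h)
  · cases h2 : a.1
    · rw [h2] at h1; exact T.meet _ _ (by rw [h2] at h; exact h) h1
    · exact absurd h2.symm hne

theorem syl_tail {a : Bool × ℤ} {l : List (Bool × ℤ)} (h : Syl (a :: l)) : Syl l :=
  ⟨h.1.tail, fun b hb => h.2 b (List.mem_cons_of_mem _ hb)⟩

theorem pp_alt (T : ETree (G ⧸ S.C)) (hT : T.r = S.rel) (l : List (Bool × ℤ)) (hl : Syl l) (g : G) :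
    Alt T.r (pp S g l) := by
  induction l generalizing g with
  | nil => simp [pp, Alt]
  | cons a l ih =>
    have h1 := ih (syl_tail hl) (g * S.x a.1 ^ a.2)
    have ha : a.2 ≠ 0 := hl.2 a (List.mem_cons_self)
    have hadj : Adj T.r (g : G ⧸ S.C) ((g * S.x a.1 ^ a.2 : G) : G ⧸ S.C) := by
      refine ⟨step_ne S ha g, a.1, ?_⟩
      rw [hT]; exact step_rel S a g
    cases l with
    | nil => simpa [pp, Alt] using hadj
    | cons b l =>
      have hb : b.2 ≠ 0 := hl.2 b (by simp)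
      have hab : a.1 ≠ b.1 := by
        have := hl.1
        rw [List.isChain_cons_cons] at this
        exact this.1
      have hturn : Turn T.r (g : G ⧸ S.C) ((g * S.x a.1 ^ a.2 : G) : G ⧸ S.C)
          ((g * S.x a.1 ^ a.2 * S.x b.1 ^ b.2 : G) : G ⧸ S.C) := by
        intro τ h2 h3
        have h4 := step_only S T hT ha g τ h2
        have h5 := step_only S T hT hb _ τ h3
        exact hab (h4.symm.trans h5)
      cases l with
      | nil => exact ⟨hadj, hturn, h1⟩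
      | cons c l => exact ⟨hadj, hturn, h1⟩

theorem pp_ed (h f : G) (hf : f ∈ Subgroup.closure (Set.range S.x)) (l : List (Bool × ℤ)) :
    ∀ e ∈ pp S (h * f) l, S.Ed h e := by
  induction l generalizing f with
  | nil =>
    intro e he
    rw [pp, List.mem_singleton] at he
    exact ⟨f, hf, he⟩
  | cons a l ih =>
    intro e he
    rw [pp, List.mem_cons] at he
    rcases he with rfl | he
    · exact ⟨f, hf, rfl⟩
    · rw [mul_assoc] at he
      exact ih (f * S.x a.1 ^ a.2) (mul_mem hf (xpow_mem S a)) e he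

theorem ev_single (x : Bool → G) (a : Bool × ℤ) : ev x [a] = x a.1 ^ a.2 := by simp [ev]

theorem syl_single {a : Bool × ℤ} (ha : a.2 ≠ 0) : Syl [a] :=
  ⟨List.isChain_singleton _, by simpa using ha⟩

theorem pow_inj (hF : ∀ l l', Syl l → Syl l' → ev S.x l = ev S.x l' → l = l') {a b : Bool × ℤ}
    (ha : a.2 ≠ 0) (hb : b.2 ≠ 0) (h : S.x a.1 ^ a.2 = S.x b.1 ^ b.2) : a = b := by
  have := hF [a] [b] (syl_single ha) (syl_single hb) (by rw [ev_single, ev_single, h])
  simpa using this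

theorem unit_iff (hFRE : S_FRE.{u}) (h f : G) (hf : f ∈ Subgroup.closure (Set.range S.x))
    (a b : Bool × ℤ) (ha : a.2 ≠ 0) (hb : b.2 ≠ 0) (hab : a.1 ≠ b.1) :
    S.U h ((h * f : G) : G ⧸ S.C) ((h * f * S.x a.1 ^ a.2 : G) : G ⧸ S.C)
      ((h * f * S.x a.1 ^ a.2 * S.x b.1 ^ b.2 : G) : G ⧸ S.C) ↔ |a.2| = 1 ∧ |b.2| = 1 := by
  obtain ⟨_, hF2, _, hF4, _⟩ := hFRE G S
  have key : ∀ f1 ∈ Subgroup.closure (Set.range S.x), ∀ f2 ∈ Subgroup.closure (Set.range S.x),
      ((h * f1 : G) : G ⧸ S.C) = ((h * f2 : G) : G ⧸ S.C) → f1 = f2 := by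
    intro f1 h1 f2 h2 he
    rw [QuotientGroup.eq] at he
    have h3 : (h * f1)⁻¹ * (h * f2) = f1⁻¹ * f2 := by group
    rw [h3] at he
    exact inv_mul_eq_one.1 (hF4 _ (mul_mem (inv_mem h1) h2) he)
  constructor
  · rintro ⟨f', hf', τ, ε, ε', e1, e2, e3⟩
    have hx1 : S.x τ ^ (ε : ℤ) ∈ Subgroup.closure (Set.range S.x) := xpow_mem S (τ, (ε : ℤ))
    have hx2 : S.x (!τ) ^ (ε' : ℤ) ∈ Subgroup.closure (Set.range S.x) := xpow_mem S (!τ, (ε' : ℤ))
    have h2 : f * S.x a.1 ^ a.2 = f' :=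
      key _ (mul_mem hf (xpow_mem S a)) _ hf' (by rw [← mul_assoc]; exact e2)
    have h1 : f = f' * S.x τ ^ (ε : ℤ) :=
      key _ hf _ (mul_mem hf' hx1) (by rw [← mul_assoc]; exact e1)
    have h3 : f * S.x a.1 ^ a.2 * S.x b.1 ^ b.2 = f' * S.x (!τ) ^ (ε' : ℤ) :=
      key _ (mul_mem (mul_mem hf (xpow_mem S a)) (xpow_mem S b)) _ (mul_mem hf' hx2)
        (by rw [← mul_assoc, ← mul_assoc, ← mul_assoc]; exact e3)
    have h4 : S.x a.1 ^ a.2 = S.x τ ^ (-(ε : ℤ)) := by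
      rw [zpow_neg]
      rw [← h2, mul_assoc] at h1
      have h5 : S.x a.1 ^ a.2 * S.x τ ^ (ε : ℤ) = 1 := by
        have := h1
        exact (mul_eq_left.1 this.symm)
      exact eq_inv_of_mul_eq_one_left h5
    have h6 : S.x b.1 ^ b.2 = S.x (!τ) ^ (ε' : ℤ) := by
      rw [h2] at h3
      exact mul_left_cancel h3
    have hε : ((ε : ℤ)) ≠ 0 := ε.ne_zero
    have hε' : ((ε' : ℤ)) ≠ 0 := ε'.ne_zero
    have h7 := pow_inj S hF2 (a := a) (b := (τ, -(ε : ℤ))) ha (neg_ne_zero.2 hε) h4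
    have h8 := pow_inj S hF2 (a := b) (b := (!τ, (ε' : ℤ))) hb hε' h6
    rw [h7, h8]
    constructor
    · rw [abs_neg]; exact Int.isUnit_iff_abs_eq.1 ε.isUnit
    · exact Int.isUnit_iff_abs_eq.1 ε'.isUnit
  · rintro ⟨h1, h2⟩
    obtain ⟨u1, hu1⟩ := Int.isUnit_iff_abs_eq.2 h1
    obtain ⟨u2, hu2⟩ := Int.isUnit_iff_abs_eq.2 h2
    refine ⟨f * S.x a.1 ^ a.2, mul_mem hf (xpow_mem S a), a.1, -u1, u2, ?_, ?_, ?_⟩
    · congr 1
      rw [Units.val_neg, hu1, zpow_neg]; group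
    · congr 1
      group
    · congr 1
      have hb' : (!a.1) = b.1 := by
        cases h3 : a.1 <;> cases h4 : b.1 <;> simp_all
      rw [hu2, hb']
      group

theorem pp_cnt (hFRE : S_FRE.{u}) (h f : G) (hf : f ∈ Subgroup.closure (Set.range S.x))
    (l : List (Bool × ℤ)) (hl : Syl l) : cnt (S.U h) (pp S (h * f) l) = up l := by
  induction l generalizing f with
  | nil => simp [pp, cnt, up]
  | cons a l ih =>
    have h1 := ih (f * S.x a.1 ^ a.2) (mul_mem hf (xpow_mem S a)) (syl_tail hl)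
    rw [← mul_assoc] at h1
    have ha : a.2 ≠ 0 := hl.2 a (List.mem_cons_self)
    cases l with
    | nil => simp [pp, cnt, up]
    | cons b l =>
      have hb : b.2 ≠ 0 := hl.2 b (by simp)
      have hab : a.1 ≠ b.1 := by
        have := hl.1
        rw [List.isChain_cons_cons] at this
        exact this.1
      have h2 := unit_iff S hFRE h f hf a b ha hb hab
      have h3 : ∃ rest, pp S (h * f * S.x a.1 ^ a.2 * S.x b.1 ^ b.2) l =
          ((h * f * S.x a.1 ^ a.2 * S.x b.1 ^ b.2 : G) : G ⧸ S.C) :: rest := by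
        cases l with
        | nil => exact ⟨[], rfl⟩
        | cons c l => exact ⟨_, rfl⟩
      obtain ⟨rest, hrest⟩ := h3
      rw [pp, hrest] at h1
      rw [pp, pp, hrest, cnt, up, h1]
      congr 1
      simp only [h2]

end

/-- CVX from UNQ and FRE -/
theorem cvx_of (hUNQ : S_UNQ.{u}) (hFRE : S_FRE.{u}) : S_CVX.{u} := by
  intro G _ S T hT h f hf l hl pth hpth
  have h1 : pth = pp S (h * f) l :=
    hUNQ _ T _ _ _ _ hpth ⟨pp_alt S T hT l hl _, pp_head S _ _, pp_last S _ _⟩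
  rw [h1]
  exact ⟨pp_ed S h f hf l, pp_cnt S hFRE h f hf l hl⟩

end Pool.Agent.L0h38.AL
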