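import Pool.Agent.L0h29.AL.Defs

/-!
# Project AL: DSP (displacement) and DCH (projections of different translates)
-/

set_option autoImplicit false

namespace Pool.Agent.L0h38.AL

open Pool.Agent.K7.H20.AW Pool.Agent.L0h29.AL

universe u

section tree

variable {E : Type u} (T : ETree E)

/-- a nearest edge with property `Q` -/
theorem nearest (Q : E → Prop) (hQ : ∃ y, Q y) (p : E) :
    ∃ y l, Q y ∧ Pth T.r p y l ∧ ∀ y' l', Q y' → Pth T.r p y' l' → l.length ≤ l'.length := by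
  classical
  obtain ⟨y0, hy0⟩ := hQ
  obtain ⟨l0, hl0⟩ := T.conn p y0
  have hex : ∃ n : ℕ, ∃ y l, Q y ∧ Pth T.r p y l ∧ l.length = n := ⟨_, y0, l0, hy0, hl0, rfl⟩
  obtain ⟨y, l, hy, hl, hn⟩ := Nat.find_spec hex
  refine ⟨y, l, hy, hl, fun y' l' hy' hl' => ?_⟩
  rw [hn]
  exact Nat.find_min' hex ⟨y', l', hy', hl', rfl⟩

variable {T}

theorem not_prefix (hSUB : S_SUB.{u}) {Q : E → Prop} {p y : E} {l : List E}
    (hl : Pth T.r p y l) (hmin : ∀ y' l', Q y' → Pth T.r p y' l' → l.length ≤ l'.length)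
    (a : E) (w v : List E) (hv : v ≠ []) (he : l = w ++ a :: v) : ¬ Q a := by
  intro hQ
  subst he
  obtain ⟨_, _, h3, _, _, _⟩ := hSUB E T (fun _ _ _ => True)
  have h := hmin a _ hQ (h3 p y a w v hl).1
  have hv' : 0 < v.length := List.length_pos_iff.2 hv
  simp only [List.length_append, List.length_cons, List.length_nil] at h
  omega

theorem cnt_nearest (hSUB : S_SUB.{u}) {Q : E → Prop} {p y : E} {l : List E}
    (hl : Pth T.r p y l) (hmin : ∀ y' l', Q y' → Pth T.r p y' l' → l.length ≤ l'.length)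
    (U : E → E → E → Prop) (hU : ∀ a b c, U a b c → Q a) : cnt U l = 0 := by
  by_contra hne
  obtain ⟨_, _, _, _, _, h6⟩ := hSUB E T U
  obtain ⟨w, a, b, c, v, he, hab⟩ := h6 l hne
  exact not_prefix hSUB hl hmin a w (b :: c :: v) (by simp) he (hU a b c hab)

end tree

section dat

variable {G : Type u} [Group G] (S : Dat G)

theorem comm_closure {z : G} (hz : ∀ τ, Commute z (S.x τ)) {f : G}
    (hf : f ∈ Subgroup.closure (Set.range S.x)) : Commute z f := by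
  refine Subgroup.closure_induction (p := fun f _ => Commute z f) ?_ ?_ ?_ ?_ hf
  · rintro _ ⟨τ, rfl⟩; exact hz τ
  · exact Commute.one_right z
  · intro a b _ _ h1 h2; exact h1.mul_right h2
  · intro a _ h; exact h.inv_right

theorem ed_self (h : G) : ∃ y, S.Ed h y := ⟨_, 1, one_mem _, rfl⟩

end dat

/-- DSP from the other modules -/
theorem dsp_of (hTRI : S_TRI.{u}) (hSUB : S_SUB.{u}) (hFRE : S_FRE.{u}) (hCVX : S_CVX.{u})
    (hEQV : S_EQV.{u}) : S_DSP.{u} := by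
  intro G _ S T hT h p k hk hk1 l hl
  obtain ⟨_, _, hF3, _, _⟩ := hFRE G S
  obtain ⟨y, P1, hy, hP1, hmin⟩ := nearest T (S.Ed h) (ed_self S h) (p : G ⧸ S.C)
  have hE := hEQV G S T hT
  obtain ⟨_, _, _, hsym, hed, _⟩ := hE 1
  have h0 : cnt (S.U h) P1 = 0 :=
    cnt_nearest hSUB hP1 hmin (S.U h) (fun a b c habc => (hed h a b c habc).1)
  obtain ⟨hrev, hcrev, _, _, _, _⟩ := hSUB _ T (S.U h)
  have h0' : cnt (S.U h) P1.reverse = 0 := by
    rw [hcrev (fun a b c => hsym h a b c), h0]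
  have hP1' := hrev _ _ _ hP1
  -- the translate
  set g : G := h * k * h⁻¹ with hg
  obtain ⟨hmap, hcmap, _, _, _, hU⟩ := hE g
  have hkF : k ∈ Subgroup.closure (Set.range S.x) := S.hK hk
  have hUk : S.U (h * k) = S.U h := by
    have := (hU 1 k h (one_mem _) (fun τ => Commute.one_left _) hkF).1
    rwa [one_mul] at this
  have hgh : g * h = h * k := by rw [hg]; group
  have h0'' : cnt (S.U h) (P1.map (g • ·)) = 0 := by
    have := hcmap h P1
    rw [hgh, hUk, h0] at this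
    exact this
  have hgP1 := hmap _ _ _ hP1
  obtain ⟨f, hf, rfl⟩ := hy
  -- the path from y to g y
  have hk' : f⁻¹ * k * f ∈ S.K := by
    have := S.nK f⁻¹ (inv_mem hf) k hk
    rwa [inv_inv] at this
  obtain ⟨w, hw, hwe⟩ := hF3 _ (S.hK hk')
  have hw0 : w ≠ [] := by
    rintro rfl
    have h1 : f⁻¹ * k * f = 1 := by rw [← hwe]; simp [ev]
    apply hk1
    have h2 : k = f * (f⁻¹ * k * f) * f⁻¹ := by group
    rw [h2, h1]; group
  have hlong := S.long w hw hw0 (by rw [hwe]; exact hk')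
  obtain ⟨P2, hP2⟩ := T.conn ((h * f : G) : G ⧸ S.C) ((h * f * ev S.x w : G) : G ⧸ S.C)
  have hc2 := (hCVX G S T hT h f hf w hw P2 hP2).2
  have hend : ((h * f * ev S.x w : G) : G ⧸ S.C) = g • ((h * f : G) : G ⧸ S.C) := by
    rw [hwe, MulAction.Quotient.smul_coe, smul_eq_mul]
    congr 1
    rw [hg]; group
  have hstart : ((h * k * h⁻¹ * p : G) : G ⧸ S.C) = g • (p : G ⧸ S.C) := by
    rw [MulAction.Quotient.smul_coe, smul_eq_mul]
  rw [hend] at hP2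
  rw [hstart] at hl
  obtain ⟨P3, hP3⟩ := T.conn ((h * f : G) : G ⧸ S.C) (g • (p : G ⧸ S.C))
  have t1 := hTRI _ T (S.U h) _ _ _ _ _ _ hP1' hl hP3
  have t2 := hTRI _ T (S.U h) _ _ _ _ _ _ hP3 hgP1 hP2
  rw [h0'] at t1
  rw [h0'', hc2] at t2
  omega

/-- DCH from the other modules -/
theorem dch_of (hTRI : S_TRI.{u}) (hSUB : S_SUB.{u}) (hFRE : S_FRE.{u}) (hRIG : S_RIG.{u})
    (hCVX : S_CVX.{u}) (hEQV : S_EQV.{u}) : S_DCH.{u} := by
  intro G _ S T hT i j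
  obtain ⟨_, _, hF3, _, _⟩ := hFRE G S
  have hE := hEQV G S T hT
  obtain ⟨_, _, _, hsym, hed, _⟩ := hE 1
  -- translation of units and edges
  have trU : ∀ g h a b c, S.U h a b c → S.U (g * h) (g • a) (g • b) (g • c) := by
    rintro g h a b c ⟨f, hf, τ, ε, ε', rfl, rfl, rfl⟩
    refine ⟨f, hf, τ, ε, ε', ?_, ?_, ?_⟩ <;>
      rw [MulAction.Quotient.smul_coe, smul_eq_mul] <;> congr 1 <;> group
  have trE : ∀ g h a, S.Ed h a → S.Ed (g * h) (g • a) := by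
    rintro g h a ⟨f, hf, rfl⟩
    refine ⟨f, hf, ?_⟩
    rw [MulAction.Quotient.smul_coe, smul_eq_mul]; congr 1; group
  -- rigidity
  have rig : ∀ i j a b c, S.U i a b c → S.Ed j a → S.Ed j b → S.Ed j c →
      ∃ z ∈ S.C, (∀ τ, Commute z (S.x τ)) ∧
        z⁻¹ * (i⁻¹ * j) ∈ Subgroup.closure (Set.range S.x) := by
    intro i j a b c hu ha hb hc
    have h1 := trU i⁻¹ i a b c hu
    rw [inv_mul_cancel] at h1
    exact hRIG G S (i⁻¹ * j) _ _ _ h1 (trE _ _ _ ha) (trE _ _ _ hb) (trE _ _ _ hc)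
  by_cases h1 : ∃ a b c, S.U i a b c ∧ S.Ed j a ∧ S.Ed j b ∧ S.Ed j c
  · obtain ⟨a, b, c, hu, ha, hb, hc⟩ := h1
    exact Or.inl (rig i j a b c hu ha hb hc)
  by_cases h2 : ∃ a b c, S.U j a b c ∧ S.Ed i a ∧ S.Ed i b ∧ S.Ed i c
  · obtain ⟨a, b, c, hu, ha, hb, hc⟩ := h2
    obtain ⟨z, hz, hzc, hzf⟩ := rig j i a b c hu ha hb hc
    refine Or.inl ⟨z⁻¹, inv_mem hz, fun τ => (hzc τ).inv_left, ?_⟩
    have h3 := inv_mem hzf
    have h4 : Commute z (z⁻¹ * (j⁻¹ * i)) := comm_closure S hzc hzf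
    have h5 : (z⁻¹)⁻¹ * (i⁻¹ * j) = (z⁻¹ * (j⁻¹ * i))⁻¹ := by
      have h6 : z * (z⁻¹ * (j⁻¹ * i)) = (z⁻¹ * (j⁻¹ * i)) * z := h4
      have h7 : j⁻¹ * i = z⁻¹ * (j⁻¹ * i) * z := by
        rw [← h6]; group
      have h8 : (z⁻¹ * (j⁻¹ * i)) = (j⁻¹ * i) * z⁻¹ := by
        conv_rhs => rw [h7]
        group
      rw [h8]; group
    rw [h5]; exact h3
  push Not at h1 h2
  refine Or.inr ⟨{p | ∃ y l, S.Ed j y ∧ Pth T.r (p : G ⧸ S.C) y l ∧ cnt (S.U i) l = 0},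
    {p | ∃ y l, S.Ed i y ∧ Pth T.r (p : G ⧸ S.C) y l ∧ cnt (S.U j) l = 0}, ?_, ?_, ?_⟩
  · intro p
    obtain ⟨y, P, hy, hP, hmin⟩ := nearest T (S.Ed j) (ed_self S j) (p : G ⧸ S.C)
    by_cases h0 : cnt (S.U i) P = 0
    · exact Or.inl ⟨y, P, hy, hP, h0⟩
    · right
      obtain ⟨_, _, h3, _, _, h6⟩ := hSUB _ T (S.U i)
      obtain ⟨w, a, b, c, v, he, hab⟩ := h6 P h0
      refine ⟨a, w ++ [a], (hed i a b c hab).1, ?_, ?_⟩
      · rw [he] at hP
        exact (h3 _ _ a w (b :: c :: v) hP).1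
      · by_contra hne
        obtain ⟨_, _, _, _, _, h6'⟩ := hSUB _ T (S.U j)
        obtain ⟨w', a', b', c', v', he', hab'⟩ := h6' _ hne
        have hEd := (hed j a' b' c' hab').1
        refine not_prefix hSUB hP hmin a' w' (b' :: c' :: v' ++ (b :: c :: v)) (by simp) ?_ hEd
        rw [he]
        have : w ++ a :: b :: c :: v = (w ++ [a]) ++ (b :: c :: v) := by simp
        rw [this, he']; simp
  · -- bound for A
    rintro a ⟨y, l1, hy, hl1, hc1⟩ a' ⟨y', l2, hy', hl2, hc2⟩ l hl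
    obtain ⟨f, hf, rfl⟩ := hy
    obtain ⟨f', hf', rfl⟩ := hy'
    obtain ⟨w, hw, hwe⟩ := hF3 _ (mul_mem (inv_mem hf) hf')
    have hend : ((j * f * ev S.x w : G) : G ⧸ S.C) = ((j * f' : G) : G ⧸ S.C) := by
      rw [hwe]; congr 1; group
    obtain ⟨P2, hP2⟩ := T.conn ((j * f : G) : G ⧸ S.C) ((j * f * ev S.x w : G) : G ⧸ S.C)
    have hc := (hCVX G S T hT j f hf w hw P2 hP2).1
    have h0 : cnt (S.U i) P2 = 0 := by
      by_contra hne
      obtain ⟨_, _, _, _, _, h6⟩ := hSUB _ T (S.U i)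
      obtain ⟨w', a1, b1, c1, v', he', hab'⟩ := h6 _ hne
      exact h1 a1 b1 c1 hab' (hc a1 (by rw [he']; simp)) (hc b1 (by rw [he']; simp))
        (hc c1 (by rw [he']; simp))
    rw [hend] at hP2
    obtain ⟨hrev, hcrev, _, _, _, _⟩ := hSUB _ T (S.U i)
    have hl2' := hrev _ _ _ hl2
    have hc2' : cnt (S.U i) l2.reverse = 0 := by rw [hcrev (fun a b c => hsym i a b c), hc2]
    obtain ⟨P3, hP3⟩ := T.conn (a : G ⧸ S.C) ((j * f' : G) : G ⧸ S.C)
    have t1 := hTRI _ T (S.U i) _ _ _ _ _ _ hl1 hP2 hP3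
    have t2 := hTRI _ T (S.U i) _ _ _ _ _ _ hP3 hl2' hl
    omega
  · -- bound for B
    rintro a ⟨y, l1, hy, hl1, hc1⟩ a' ⟨y', l2, hy', hl2, hc2⟩ l hl
    obtain ⟨f, hf, rfl⟩ := hy
    obtain ⟨f', hf', rfl⟩ := hy'
    obtain ⟨w, hw, hwe⟩ := hF3 _ (mul_mem (inv_mem hf) hf')
    have hend : ((i * f * ev S.x w : G) : G ⧸ S.C) = ((i * f' : G) : G ⧸ S.C) := by
      rw [hwe]; congr 1; group
    obtain ⟨P2, hP2⟩ := T.conn ((i * f : G) : G ⧸ S.C) ((i * f * ev S.x w : G) : G ⧸ S.C)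
    have hc := (hCVX G S T hT i f hf w hw P2 hP2).1
    have h0 : cnt (S.U j) P2 = 0 := by
      by_contra hne
      obtain ⟨_, _, _, _, _, h6⟩ := hSUB _ T (S.U j)
      obtain ⟨w', a1, b1, c1, v', he', hab'⟩ := h6 _ hne
      exact h2 a1 b1 c1 hab' (hc a1 (by rw [he']; simp)) (hc b1 (by rw [he']; simp))
        (hc c1 (by rw [he']; simp))
    rw [hend] at hP2
    obtain ⟨hrev, hcrev, _, _, _, _⟩ := hSUB _ T (S.U j)
    have hl2' := hrev _ _ _ hl2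
    have hc2' : cnt (S.U j) l2.reverse = 0 := by rw [hcrev (fun a b c => hsym j a b c), hc2]
    obtain ⟨P3, hP3⟩ := T.conn (a : G ⧸ S.C) ((i * f' : G) : G ⧸ S.C)
    have t1 := hTRI _ T (S.U j) _ _ _ _ _ _ hl1 hP2 hP3
    have t2 := hTRI _ T (S.U j) _ _ _ _ _ _ hP3 hl2' hl
    omega

end Pool.Agent.L0h38.AL
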