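import Pool.Agent.L0h38.AL.CVX

/-!
# Project AL: EQV (equivariance)
-/

set_option autoImplicit false

namespace Pool.Agent.L0h38.AL

open Pool.Agent.K7.H20.AW Pool.Agent.L0h29.AL

universe u

section gen

variable {E : Type u} {r : Bool → E → E → Prop} {φ : E → E} (hφ : Function.Injective φ)
  (hr : ∀ τ a b, r τ (φ a) (φ b) ↔ r τ a b)

include hφ hr

theorem adj_map (a b : E) : Adj r (φ a) (φ b) ↔ Adj r a b := by
  unfold Adj
  rw [hφ.ne_iff]
  simp only [hr]

omit hφ in
theorem turn_map (a b c : E) : Turn r (φ a) (φ b) (φ c) ↔ Turn r a b c := by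
  unfold Turn
  simp only [hr]

theorem alt_map (l : List E) (h : Alt r l) : Alt r (l.map φ) := by
  induction l with
  | nil => simp [Alt]
  | cons a l ih =>
    cases l with
    | nil => simp [Alt]
    | cons b l =>
      cases l with
      | nil => exact (adj_map hφ hr a b).2 h
      | cons c l =>
        obtain ⟨h1, h2, h3⟩ := h
        exact ⟨(adj_map hφ hr a b).2 h1, (turn_map hr a b c).2 h2, ih h3⟩

theorem pth_map (p q : E) (l : List E) (h : Pth r p q l) : Pth r (φ p) (φ q) (l.map φ) := by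
  refine ⟨alt_map hφ hr l h.1, ?_, ?_⟩
  · rw [List.head?_map, h.2.1]; rfl
  · rw [List.getLast?_map, h.2.2]; rfl

end gen

theorem cnt_map {E : Type u} (φ : E → E) (U U' : E → E → E → Prop)
    (h : ∀ a b c, U' (φ a) (φ b) (φ c) ↔ U a b c) (l : List E) : cnt U' (l.map φ) = cnt U l := by
  induction l with
  | nil => simp [cnt]
  | cons a l ih =>
    cases l with
    | nil => simp [cnt]
    | cons b l =>
      cases l with
      | nil => simp [cnt]
      | cons c l =>
        simp only [List.map_cons] at ih ⊢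
        rw [cnt, cnt, ih]
        congr 1
        by_cases hu : U a b c
        · rw [if_pos hu, if_pos ((h a b c).2 hu)]
        · rw [if_neg hu, if_neg (fun h' => hu ((h a b c).1 h'))]

section dat

variable {G : Type u} [Group G] (S : Dat G)

theorem rel_smul (k : G) (τ : Bool) (a b : G ⧸ S.C) : S.rel τ (k • a) (k • b) ↔ S.rel τ a b := by
  induction a using QuotientGroup.induction_on with | _ a
  induction b using QuotientGroup.induction_on with | _ b
  rw [MulAction.Quotient.smul_coe, MulAction.Quotient.smul_coe, smul_eq_mul, smul_eq_mul,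
    rel_mk, rel_mk]
  have : (k * a)⁻¹ * (k * b) = a⁻¹ * b := by group
  rw [this]

theorem U_smul' (k h : G) (a b c : G ⧸ S.C) (hu : S.U h a b c) :
    S.U (k * h) (k • a) (k • b) (k • c) := by
  obtain ⟨f, hf, τ, ε, ε', rfl, rfl, rfl⟩ := hu
  refine ⟨f, hf, τ, ε, ε', ?_, ?_, ?_⟩ <;>
    rw [MulAction.Quotient.smul_coe, smul_eq_mul] <;> congr 1 <;> group

theorem U_smul (k h : G) (a b c : G ⧸ S.C) :
    S.U (k * h) (k • a) (k • b) (k • c) ↔ S.U h a b c := by
  refine ⟨fun hu => ?_, U_smul' S k h a b c⟩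
  have := U_smul' S k⁻¹ _ _ _ _ hu
  simpa using this

theorem UU_smul (k : G) (a b c : G ⧸ S.C) :
    S.UU (k • a) (k • b) (k • c) ↔ S.UU a b c := by
  constructor
  · rintro ⟨h, hu⟩
    refine ⟨k⁻¹ * h, ?_⟩
    have := U_smul' S k⁻¹ _ _ _ _ hu
    simpa using this
  · rintro ⟨h, hu⟩
    exact ⟨k * h, U_smul' S k _ _ _ _ hu⟩

theorem comm_cl {z : G} (hz : ∀ τ, Commute z (S.x τ)) {f : G}
    (hf : f ∈ Subgroup.closure (Set.range S.x)) : Commute z f := by
  refine Subgroup.closure_induction (p := fun f _ => Commute z f) ?_ ?_ ?_ ?_ hf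
  · rintro _ ⟨τ, rfl⟩; exact hz τ
  · exact Commute.one_right z
  · intro a b _ _ h1 h2; exact h1.mul_right h2
  · intro a _ h; exact h.inv_right

theorem coe_mul_z {z : G} (hz : z ∈ S.C) (a : G) : ((a * z : G) : G ⧸ S.C) = (a : G ⧸ S.C) := by
  rw [eq_comm, QuotientGroup.eq, inv_mul_cancel_left]
  exact hz

end dat

/-- EQV -/
theorem eqv : S_EQV.{u} := by
  intro G _ S T hT k
  refine ⟨?_, ?_, ?_, ?_, ?_, ?_⟩
  · intro p q l h
    refine pth_map (φ := (k • ·)) (MulAction.injective k) ?_ p q l h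
    intro τ a b
    rw [hT]
    exact rel_smul S k τ a b
  · intro h l
    exact cnt_map _ _ _ (fun a b c => U_smul S k h a b c) l
  · intro l
    exact cnt_map _ _ _ (fun a b c => UU_smul S k a b c) l
  · rintro h a b c ⟨f, hf, τ, ε, ε', rfl, rfl, rfl⟩
    exact ⟨f, hf, !τ, ε', ε, rfl, rfl, by rw [Bool.not_not]⟩
  · rintro h a b c ⟨f, hf, τ, ε, ε', rfl, rfl, rfl⟩
    refine ⟨⟨f * S.x τ ^ (ε : ℤ), mul_mem hf (xpow_mem S (τ, (ε : ℤ))), ?_⟩, ⟨f, hf, rfl⟩,
      ⟨f * S.x (!τ) ^ (ε' : ℤ), mul_mem hf (xpow_mem S (!τ, (ε' : ℤ))), ?_⟩⟩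
    · rw [mul_assoc]
    · rw [mul_assoc]
  · intro z f h hz hzc hf
    have hx : ∀ τ (e : ℤ), S.x τ ^ e ∈ Subgroup.closure (Set.range S.x) :=
      fun τ e => xpow_mem S (τ, e)
    have key : ∀ f' ∈ Subgroup.closure (Set.range S.x),
        ((h * (z * f) * f' : G) : G ⧸ S.C) = ((h * (f * f') : G) : G ⧸ S.C) := by
      intro f' hf'
      have h1 : z * (f * f') = f * f' * z := (comm_cl S hzc (mul_mem hf hf')).eq
      have h2 : h * (z * f) * f' = h * (f * f') * z := by
        rw [mul_assoc h, mul_assoc z, h1]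
        simp only [mul_assoc]
      rw [h2, coe_mul_z S hz]
    have key1 : ∀ f' ∈ Subgroup.closure (Set.range S.x), ∀ τ (e : ℤ),
        ((h * (z * f) * f' * S.x τ ^ e : G) : G ⧸ S.C) =
          ((h * (f * f') * S.x τ ^ e : G) : G ⧸ S.C) := by
      intro f' hf' τ e
      have e1 : h * (z * f) * f' * S.x τ ^ e = h * (z * f) * (f' * S.x τ ^ e) :=
        mul_assoc _ _ _
      have e2 : h * (f * f') * S.x τ ^ e = h * (f * (f' * S.x τ ^ e)) := by
        simp only [mul_assoc]
      rw [e1, e2]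
      exact key (f' * S.x τ ^ e) (mul_mem hf' (hx τ e))
    constructor
    · funext a b c
      apply propext
      constructor
      · rintro ⟨f', hf', τ, ε, ε', rfl, rfl, rfl⟩
        refine ⟨f * f', mul_mem hf hf', τ, ε, ε', key1 f' hf' _ _, key f' hf', key1 f' hf' _ _⟩
      · rintro ⟨f', hf', τ, ε, ε', rfl, rfl, rfl⟩
        have hff : f⁻¹ * f' ∈ Subgroup.closure (Set.range S.x) := mul_mem (inv_mem hf) hf'
        refine ⟨f⁻¹ * f', hff, τ, ε, ε', ?_, ?_, ?_⟩
        · rw [key1 _ hff, mul_inv_cancel_left]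
        · rw [key _ hff, mul_inv_cancel_left]
        · rw [key1 _ hff, mul_inv_cancel_left]
    · intro k'
      constructor
      · intro hk
        have h1 := S.nK f hf k' hk
        have h2 : z * (f * k' * f⁻¹) = f * k' * f⁻¹ * z := (comm_cl S hzc (S.hK h1)).eq
        have h3 : z * f * k' * (z * f)⁻¹ = f * k' * f⁻¹ := by
          have : z * f * k' * (z * f)⁻¹ = z * (f * k' * f⁻¹) * z⁻¹ := by group
          rw [this, h2]; group
        rw [h3]; exact h1
      · intro hk
        have h2 : z * (z * f * k' * (z * f)⁻¹) = z * f * k' * (z * f)⁻¹ * z :=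
          (comm_cl S hzc (S.hK hk)).eq
        have h3 := S.nK f⁻¹ (inv_mem hf) _ hk
        have h4 : f⁻¹ * (z * f * k' * (z * f)⁻¹) * (f⁻¹)⁻¹ = k' := by
          have h5 : z * f * k' * (z * f)⁻¹ = f * k' * f⁻¹ := by
            have h6 : z⁻¹ * (z * (z * f * k' * (z * f)⁻¹)) = z⁻¹ * (z * f * k' * (z * f)⁻¹ * z) := by
              rw [h2]
            rw [inv_mul_cancel_left] at h6
            rw [h6]; group
          rw [h5]; group
        rw [h4] at h3
        exact h3

end Pool.Agent.L0h38.AL
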