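import Pool.Agent.L0h29.AL.Defs

/-!
# Project AL: FAM (the windmill theorem for the translates of `T₀`)
-/

set_option autoImplicit false

namespace Pool.Agent.L0h38.AL

open Pool.Agent.K7.H20.AW Pool.Agent.L0h29.AL

universe u

section

variable {G : Type u} [Group G] (S : Dat G) (T : ETree (G ⧸ S.C))

/-- the path -/
noncomputable def pth (p q : G) : List (G ⧸ S.C) := (T.conn (p : G ⧸ S.C) (q : G ⧸ S.C)).choose

theorem pth_spec (p q : G) : Pth T.r (p : G ⧸ S.C) (q : G ⧸ S.C) (pth S T p q) :=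
  (T.conn (p : G ⧸ S.C) (q : G ⧸ S.C)).choose_spec

open Classical in
/-- the pseudometrics -/
noncomputable def DD (i p q : G) : ℤ := if p = q then 0 else 2 + cnt (S.U i) (pth S T p q)

/-- the subgroups -/
def HH (i : G) : Subgroup G := S.K.map (MulAut.conj i).toMonoidHom

theorem mem_HH (i h : G) : h ∈ HH S i ↔ ∃ k ∈ S.K, i * k * i⁻¹ = h := by
  unfold HH
  rw [Subgroup.mem_map]
  rfl

/-- word length with respect to `A true ∪ A false` -/
noncomputable def bb (q : G) : ℕ :=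
  sInf {n | ∃ l : List G, (∀ x ∈ l, x ∈ S.A true ∨ x ∈ S.A false) ∧ l.prod = q ∧ l.length = n}

theorem exists_list (q : G) :
    ∃ l : List G, (∀ x ∈ l, x ∈ S.A true ∨ x ∈ S.A false) ∧ l.prod = q := by
  have hq : q ∈ S.A true ⊔ S.A false := by rw [S.gen]; exact Subgroup.mem_top q
  rw [Subgroup.sup_eq_closure] at hq
  refine Subgroup.closure_induction
    (p := fun q _ => ∃ l : List G, (∀ x ∈ l, x ∈ S.A true ∨ x ∈ S.A false) ∧ l.prod = q)
    ?_ ?_ ?_ ?_ hq
  · intro x hx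
    exact ⟨[x], by simpa using hx, by simp⟩
  · exact ⟨[], by simp, rfl⟩
  · rintro x y _ _ ⟨l, hl, rfl⟩ ⟨l', hl', rfl⟩
    refine ⟨l ++ l', ?_, by simp⟩
    intro z hz
    rw [List.mem_append] at hz
    exact hz.elim (hl z) (hl' z)
  · rintro x _ ⟨l, hl, rfl⟩
    refine ⟨(l.map (·⁻¹)).reverse, ?_, (List.prod_inv_reverse l).symm⟩
    intro z hz
    rw [List.mem_reverse, List.mem_map] at hz
    obtain ⟨y, hy, rfl⟩ := hz
    exact (hl y hy).imp inv_mem inv_mem

theorem bb_spec (q : G) :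
    ∃ l : List G, (∀ x ∈ l, x ∈ S.A true ∨ x ∈ S.A false) ∧ l.prod = q ∧ l.length = bb S q := by
  obtain ⟨l, hl, hq⟩ := exists_list S q
  exact Nat.sInf_mem (s := {n | ∃ l : List G, (∀ x ∈ l, x ∈ S.A true ∨ x ∈ S.A false) ∧
    l.prod = q ∧ l.length = n}) ⟨_, l, hl, hq, rfl⟩

theorem bb_le (l : List G) (hl : ∀ x ∈ l, x ∈ S.A true ∨ x ∈ S.A false) :
    bb S l.prod ≤ l.length :=
  Nat.sInf_le ⟨l, hl, rfl, rfl⟩

end

/-- FAM from the other modules -/
theorem fam_of (hWIN : S_WIN.{u, u, u}) (hUNQ : S_UNQ.{u}) (hTRI : S_TRI.{u}) (hSUB : S_SUB.{u})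
    (hEQV : S_EQV.{u}) (hDSP : S_DSP.{u}) (hDCH : S_DCH.{u}) : S_FAM.{u} := by
  classical
  intro G _ S T hT g hg hg1
  have hE := hEQV G S T hT
  obtain ⟨_, _, _, hsym, _, _⟩ := hE 1
  -- the path is the path
  have hpth : ∀ (p q : G) (l : List (G ⧸ S.C)), Pth T.r (p : G ⧸ S.C) (q : G ⧸ S.C) l → pth S T p q = l :=
    fun p q l hl => hUNQ _ T _ _ _ _ (pth_spec S T p q) hl
  -- `D` for different points
  have hD : ∀ (i p q : G) (l : List (G ⧸ S.C)), p ≠ q → Pth T.r (p : G ⧸ S.C) (q : G ⧸ S.C) l →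
      DD S T i p q = 2 + cnt (S.U i) l := by
    intro i p q l hpq hl
    unfold DD
    rw [if_neg hpq, hpth p q l hl]
  have hDnn : ∀ i p q, 0 ≤ DD S T i p q := by
    intro i p q
    unfold DD
    split_ifs
    · exact le_rfl
    · positivity
  have hDself : ∀ i p, DD S T i p p = 0 := by
    intro i p; unfold DD; rw [if_pos rfl]
  have hDcomm : ∀ i p q, DD S T i p q = DD S T i q p := by
    intro i p q
    by_cases h : p = q
    · subst h; rfl
    · obtain ⟨hrev, hcrev, _⟩ := hSUB _ T (S.U i)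
      rw [hD i p q _ h (pth_spec S T p q), hD i q p _ (Ne.symm h) (hrev _ _ _ (pth_spec S T p q)),
        hcrev (fun a b c => hsym i a b c)]
  have hDtri : ∀ i p q r, DD S T i p r ≤ DD S T i p q + DD S T i q r := by
    intro i p q r
    by_cases h1 : p = q
    · subst h1; rw [hDself]; simp
    by_cases h2 : q = r
    · subst h2; rw [hDself]; simp
    by_cases h3 : p = r
    · subst h3; rw [hDself]; exact add_nonneg (hDnn _ _ _) (hDnn _ _ _)
    · rw [hD i p r _ h3 (pth_spec S T p r), hD i p q _ h1 (pth_spec S T p q),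
        hD i q r _ h2 (pth_spec S T q r)]
      have := hTRI _ T (S.U i) _ _ _ _ _ _ (pth_spec S T p q) (pth_spec S T q r)
        (pth_spec S T p r)
      have h4 : (cnt (S.U i) (pth S T p r) : ℤ) ≤
          cnt (S.U i) (pth S T p q) + cnt (S.U i) (pth S T q r) + 2 := by exact_mod_cast this
      linarith
  have hDsmul : ∀ (g i p q : G), DD S T (g * i) (g * p) (g * q) = DD S T i p q := by
    intro g i p q
    by_cases h : p = q
    · subst h; rw [hDself, hDself]
    · obtain ⟨hmap, hcmap, _⟩ := hE g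
      have h1 := hmap _ _ _ (pth_spec S T p q)
      rw [MulAction.Quotient.smul_coe, MulAction.Quotient.smul_coe, smul_eq_mul, smul_eq_mul] at h1
      rw [hD _ _ _ _ (fun e => h (mul_left_cancel e)) h1, hcmap, hD i p q _ h (pth_spec S T p q)]
  have hDU : ∀ i j : G, S.U i = S.U j → ∀ p q, DD S T i p q = DD S T j p q := by
    intro i j h p q
    unfold DD
    rw [h]
  have hUF : ∀ (i f : G), f ∈ Subgroup.closure (Set.range S.x) → S.U (i * f) = S.U i := by
    intro i f hf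
    have := ((hE 1).2.2.2.2.2 1 f i (one_mem _) (fun τ => Commute.one_left _) hf).1
    rwa [one_mul] at this
  have hDH : ∀ i, ∀ h ∈ HH S i, ∀ p q, DD S T i (h * p) (h * q) = DD S T i p q := by
    intro i h hh p q
    rw [mem_HH] at hh
    obtain ⟨k, hk, rfl⟩ := hh
    have h1 := hDsmul (i * k * i⁻¹) i p q
    rw [← h1]
    apply hDU
    have h2 : i * k * i⁻¹ * i = i * k := by group
    rw [h2, hUF i k (S.hK hk)]
  have hHs : ∀ (g i h : G), h ∈ HH S i → g * h * g⁻¹ ∈ HH S (g * i) := by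
    intro g i h hh
    rw [mem_HH] at hh ⊢
    obtain ⟨k, hk, rfl⟩ := hh
    exact ⟨k, hk, by group⟩
  have hdisp : ∀ i, ∀ h ∈ HH S i, h ≠ 1 → ∀ p, (S.m : ℤ) - 5 ≤ DD S T i p (h * p) := by
    intro i h hh h1 p
    rw [mem_HH] at hh
    obtain ⟨k, hk, rfl⟩ := hh
    have hk1 : k ≠ 1 := by
      rintro rfl; apply h1; group
    have hne : p ≠ i * k * i⁻¹ * p := by
      intro e
      exact h1 (mul_eq_right.1 e.symm)
    have h2 := hDSP G S T hT i p k hk hk1 _ (pth_spec S T p (i * k * i⁻¹ * p))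
    rw [hD _ _ _ _ hne (pth_spec S T p (i * k * i⁻¹ * p))]
    have h3 : (S.m : ℤ) ≤ cnt (S.U i) (pth S T p (i * k * i⁻¹ * p)) + 7 := by exact_mod_cast h2
    linarith
  have hnrD : ∀ (i p q : G), (p⁻¹ * q ∈ S.A true ∨ p⁻¹ * q ∈ S.A false) → DD S T i p q ≤ 3 := by
    intro i p q h
    by_cases hpq : p = q
    · subst hpq; rw [hDself]; norm_num
    obtain ⟨τ, hτ⟩ : ∃ τ, p⁻¹ * q ∈ S.A τ := by
      rcases h with h | h
      · exact ⟨true, h⟩
      · exact ⟨false, h⟩
    by_cases he : (p : G ⧸ S.C) = (q : G ⧸ S.C)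
    · have h1 : Pth T.r (p : G ⧸ S.C) (q : G ⧸ S.C) [(p : G ⧸ S.C)] := by
        refine ⟨by simp [Alt], rfl, ?_⟩
        rw [he]; rfl
      rw [hD _ _ _ _ hpq h1]
      simp [cnt]
    · have h1 : Pth T.r (p : G ⧸ S.C) (q : G ⧸ S.C) [(p : G ⧸ S.C), (q : G ⧸ S.C)] := by
        refine ⟨⟨he, τ, ?_⟩, rfl, rfl⟩
        rw [hT]
        unfold Amal.rel
        rw [Subgroup.quotientMapOfLE_apply_mk, Subgroup.quotientMapOfLE_apply_mk, QuotientGroup.eq]
        exact hτ
      rw [hD _ _ _ _ hpq h1]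
      simp [cnt]
  have hb0 : ∀ q : G, bb S q = 0 → q = 1 := by
    intro q hq
    obtain ⟨l, _, h2, h3⟩ := bb_spec S q
    rw [hq, List.length_eq_zero_iff] at h3
    rw [← h2, h3]; rfl
  have hbs : ∀ (n : ℕ) (q : G), bb S q ≤ n + 1 →
      ∃ p, bb S p ≤ n ∧ (p⁻¹ * q ∈ S.A true ∨ p⁻¹ * q ∈ S.A false) := by
    intro n q hq
    obtain ⟨l, h1, h2, h3⟩ := bb_spec S q
    rcases List.eq_nil_or_concat l with h4 | ⟨l', x, h4⟩
    · refine ⟨q, ?_, Or.inl ?_⟩
      · rw [← h3, h4]; exact Nat.zero_le n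
      · rw [inv_mul_cancel]; exact one_mem _
    · rw [List.concat_eq_append] at h4
      subst h4
      refine ⟨l'.prod, ?_, ?_⟩
      · refine (bb_le S l' (fun y hy => h1 y (by simp [hy]))).trans ?_
        have : (l' ++ [x]).length = l'.length + 1 := by simp
        omega
      · rw [← h2, List.prod_append, List.prod_singleton, inv_mul_cancel_left]
        exact h1 x (by simp)
  have hdich : ∀ i j : G, (HH S i = HH S j ∧ ∀ p q, DD S T i p q = DD S T j p q) ∨
      ∃ A B : Set G, (∀ p, p ∈ A ∨ p ∈ B) ∧ (∀ a ∈ A, ∀ a' ∈ A, DD S T i a a' < 7) ∧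
        (∀ b ∈ B, ∀ b' ∈ B, DD S T j b b' < 7) := by
    intro i j
    rcases hDCH G S T hT i j with ⟨z, hz, hzc, hzf⟩ | ⟨A, B, h1, h2, h3⟩
    · left
      obtain ⟨h4, h5⟩ := (hE 1).2.2.2.2.2 z (z⁻¹ * (i⁻¹ * j)) i hz hzc hzf
      have h6 : i * (z * (z⁻¹ * (i⁻¹ * j))) = j := by group
      have h7 : z * (z⁻¹ * (i⁻¹ * j)) = i⁻¹ * j := by group
      rw [h6] at h4
      rw [h7] at h5
      refine ⟨?_, hDU i j h4.symm⟩
      ext h
      rw [mem_HH, mem_HH]
      constructor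
      · rintro ⟨k, hk, rfl⟩
        refine ⟨j⁻¹ * (i * k * i⁻¹) * j, ?_, by group⟩
        rw [h5]
        have : i⁻¹ * j * (j⁻¹ * (i * k * i⁻¹) * j) * (i⁻¹ * j)⁻¹ = k := by group
        rw [this]; exact hk
      · rintro ⟨k, hk, rfl⟩
        refine ⟨i⁻¹ * j * k * (i⁻¹ * j)⁻¹, (h5 k).1 hk, by group⟩
    · refine Or.inr ⟨A, B, h1, ?_, ?_⟩
      · intro a ha a' ha'
        by_cases haa : a = a'
        · subst haa; rw [hDself]; norm_num
        · have h4 := h2 a ha a' ha' _ (pth_spec S T a a')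
          rw [hD _ _ _ _ haa (pth_spec S T a a')]
          have : (cnt (S.U i) (pth S T a a') : ℤ) ≤ 4 := by exact_mod_cast h4
          linarith
      · intro a ha a' ha'
        by_cases haa : a = a'
        · subst haa; rw [hDself]; norm_num
        · have h4 := h3 a ha a' ha' _ (pth_spec S T a a')
          rw [hD _ _ _ _ haa (pth_spec S T a a')]
          have : (cnt (S.U j) (pth S T a a') : ℤ) ≤ 4 := by exact_mod_cast h4
          linarith
  let F : Fam G G G :=
    { D := DD S T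
      H := HH S
      κ := 7
      L := (S.m : ℤ) - 5
      v0 := 1
      nr := fun p q => p⁻¹ * q ∈ S.A true ∨ p⁻¹ * q ∈ S.A false
      b := bb S
      D_self := hDself
      D_comm := hDcomm
      D_tri := hDtri
      D_smul := hDsmul
      D_H := hDH
      H_smul := hHs
      disp := hdisp
      hκ := by norm_num
      hL := by
        have : (82 : ℤ) ≤ S.m := by exact_mod_cast S.hm
        linarith
      nr_refl := fun p => Or.inl (by rw [inv_mul_cancel]; exact one_mem _)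
      nr_smul := fun g p q h => by
        simp only [smul_eq_mul]
        have : (g * p)⁻¹ * (g * q) = p⁻¹ * q := by group
        rw [this]; exact h
      nr_D := hnrD
      b0 := hb0
      bs := hbs
      dich := hdich }
  have hmem : g ∈ ⨆ i, F.H i := by
    have : Subgroup.normalClosure (S.K : Set G) ≤ ⨆ i, HH S i := by
      rw [Subgroup.normalClosure, Subgroup.closure_le]
      intro x hx
      rw [Group.mem_conjugatesOfSet_iff] at hx
      obtain ⟨k, hk, hkx⟩ := hx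
      rw [isConj_iff] at hkx
      obtain ⟨c, hc⟩ := hkx
      exact Subgroup.mem_iSup_of_mem c ((mem_HH S c x).2 ⟨k, hk, hc⟩)
    exact this hg
  obtain ⟨i, k, hk, h1, h2⟩ := hWIN G G G F g hmem hg1
  have hk' : k ∈ HH S i := hk
  rw [mem_HH] at hk'
  obtain ⟨k', hk'K, rfl⟩ := hk'
  have h1' : (S.m : ℤ) - 5 - 5 * 7 ≤ DD S T i 1 (g * 1) := h1
  have h2' : DD S T i 1 (i * k' * i⁻¹ * (g * 1)) ≤ 5 * 7 := h2
  rw [mul_one] at h1' h2'
  refine ⟨i, k', hk'K, ?_, ?_⟩
  · intro l hl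
    rw [hD _ _ _ _ (Ne.symm hg1) hl] at h1'
    have : (S.m : ℤ) ≤ cnt (S.U i) l + 42 := by linarith
    exact_mod_cast this
  · intro l hl
    by_cases he : (1 : G) = i * k' * i⁻¹ * g
    · rw [← he] at hl
      rw [T.noloop _ l hl]
      simp [cnt]
    · rw [hD _ _ _ _ he hl] at h2'
      have : (cnt (S.U i) l : ℤ) ≤ 33 := by linarith
      exact_mod_cast this

end Pool.Agent.L0h38.AL
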