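import Pool.Agent.L0h29.AL.ArtDefs

/-!
# Project AL: KER (the kernel of the map which restores one label)
-/

set_option autoImplicit false

namespace Pool.Agent.L0h38.AL

open Pool.Agent.K7.H20.AW Pool.Agent.L0h29.AL Pool.Agent.Helper741 Pool.Agent.K7.H87.FJ6

universe u

theorem er_apply {B : Type*} [DecidableEq B] (M : CoxeterMatrix B) (s t i j : B) :
    er M s t i j = if i = j then 1 else if (i = s ∧ j = t) ∨ (i = t ∧ j = s) then 0 else M i j :=
  rfl

theorem lift_rm {B : Type*} (M' : CoxeterMatrix B) (s t : B) (m : ℕ) :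
    FreeGroup.lift (xx M' s t) (rm m) =
      alt (g M' s) (g M' t) m * (alt (g M' t) (g M' s) m)⁻¹ := by
  unfold rm
  rw [map_mul, map_inv, altProd_eq, altProd_eq, map_alt, map_alt, FreeGroup.lift_apply_of,
    FreeGroup.lift_apply_of]
  rfl

theorem ker : S_KER.{u} := by
  intro B _ _ M s t hst w hw
  set N := Subgroup.normalClosure
    ((Subgroup.map (FreeGroup.lift (xx (er M s t) s t))
      (Subgroup.normalClosure {rm (M s t)}) : Subgroup (Art (er M s t))) : Set (Art (er M s t)))
    with hN
  have hrm : alt (g (er M s t) s) (g (er M s t) t) (M s t) *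
      (alt (g (er M s t) t) (g (er M s t) s) (M s t))⁻¹ ∈ N := by
    rw [← lift_rm]
    apply Subgroup.subset_normalClosure
    exact Subgroup.mem_map_of_mem _ (Subgroup.subset_normalClosure rfl)
  have hst' : alt (QuotientGroup.mk' N (g (er M s t) s)) (QuotientGroup.mk' N (g (er M s t) t))
      (M s t) = alt (QuotientGroup.mk' N (g (er M s t) t)) (QuotientGroup.mk' N (g (er M s t) s))
      (M s t) := by
    rw [← map_alt, ← map_alt, ← mul_inv_eq_one, ← map_inv, ← map_mul]
    rw [QuotientGroup.mk'_apply, QuotientGroup.eq_one_iff]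
    exact hrm
  let φ : Art M →* (Art (er M s t)) ⧸ N :=
    Sh.lift (fun b => QuotientGroup.mk' N (g (er M s t) b)) (by
      intro i j
      by_cases hij : i = j
      · rw [hij]
      by_cases h1 : i = s ∧ j = t
      · rw [h1.1, h1.2]; exact hst'
      by_cases h2 : i = t ∧ j = s
      · rw [h2.1, h2.2, M.symmetric t s]; exact hst'.symm
      · have h3 := Sh.rel (M := er M s t) (p := z0 B) i j
        rw [er_apply, if_neg hij, if_neg (not_or.2 ⟨h1, h2⟩)] at h3
        have h4 := congrArg (QuotientGroup.mk' N) h3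
        rw [map_alt, map_alt] at h4
        exact h4) (fun _ => pow_zero _)
  have hφ : ∀ b, φ (g M b) = QuotientGroup.mk' N (g (er M s t) b) := fun b => Sh.lift_gen _ _ _ _
  have hval : ∀ w : List (B × ℤ), φ (val M w) = QuotientGroup.mk' N (val (er M s t) w) := by
    intro w
    induction w with
    | nil => rw [val_nil, val_nil, map_one, map_one]
    | cons p w ih => rw [val_cons, val_cons, map_mul, map_mul, map_zpow, map_zpow, hφ, ih]
  have h1 := hval w
  rw [hw, map_one, eq_comm, QuotientGroup.mk'_apply, QuotientGroup.eq_one_iff] at h1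
  exact h1

end Pool.Agent.L0h38.AL
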